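import Pool.Agent.P.MP_e7d440_ag.AllGr

namespace Pool.Agent.P.MP_e7d440_ag.Old.GLn

open Pool.Agent.P.MP_e7d440_ag

/-- Local models for `GL_n`, any parahoric level `I`, any minuscule coweight: every local ring
of the normalized flat closure is a normal Noetherian domain satisfying the Lipman-Teissier
injectivity condition. -/
theorem result (O : Type) [CommRing O] [IsDomain O] [IsDiscreteValuationRing O] [CharZero O]
    (π : O) (hπ : Irreducible π) (r m : ℕ) (I : Finset (Fin (r + m))) (hI : I.Nonempty)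
    (J : Fin (r + m) → Fin r → Fin (r + m)) (hJ : ∀ i ∈ I, Function.Injective (J i))
    (𝔭 : Ideal (nchart π I J)) [𝔭.IsPrime] :
    IsNoetherianRing (Localization.AtPrime 𝔭) ∧ IsDomain (Localization.AtPrime 𝔭) ∧
      IsIntegrallyClosed (Localization.AtPrime 𝔭) ∧ LTInj (Localization.AtPrime 𝔭) := by
  obtain ⟨h1, h2, h3, h4⟩ := gr' O r m π I J hπ hI hJ
  refine final_of locy crit' scheme π hπ ?_ h4 𝔭
  rw [IsScalarTower.algebraMap_eq O (MvPolynomial (Fin r × Fin m) O) (FF O r m)]
  exact (IsFractionRing.injective (MvPolynomial (Fin r × Fin m) O) (FF O r m)).comp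
    (MvPolynomial.C_injective _ _)

end Pool.Agent.P.MP_e7d440_ag.Old.GLn
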